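import Pool.Agent.J4H26.KP.Q2

set_option autoImplicit false

/-! Project KP (L7): grouping of the equal labels. -/

namespace Pool.Agent.J4H97.KP

open Finset Filter Real
open Pool.Agent.J4H26.KP (ccK cl mR mP MnQ CentK S_RST S_UNM2 S_BLK2)

/-- the indices with the label `y` -/
noncomputable def Bl {K : ℕ} (s : Fin K → ℤ × ℤ) (y : ℤ × ℤ) : Finset (Fin K) := univ.filter (fun j => y = s j)

theorem mem_Bl {K : ℕ} {s : Fin K → ℤ × ℤ} {y : ℤ × ℤ} {j : Fin K} : j ∈ Bl s y ↔ y = s j := by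
  unfold Bl
  rw [mem_filter]
  exact ⟨fun h => h.2, fun h => ⟨mem_univ _, h⟩⟩

theorem mP_eq {K : ℕ} (m : Finset (Fin K) → ℝ) (s : Fin K → ℤ × ℤ) : mP m s = ∏ y ∈ univ.image s, m (Bl s y) := by
  unfold mP mR
  have e : (fun i => univ.filter (fun j => s i = s j)) = Bl s ∘ s := by
    funext i
    rfl
  have e2 : (univ.image (Bl s ∘ s)) = (univ.image s).image (Bl s) := by
    rw [image_image]
  have e3 : ∏ B ∈ (univ.image s).image (Bl s), m B = ∏ y ∈ univ.image s, m (Bl s y) := by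
    rw [prod_image]
    intro y hy y' _ h
    rw [mem_coe, mem_image] at hy
    obtain ⟨i, _, hi⟩ := hy
    have h1 : i ∈ Bl s y := mem_Bl.2 hi.symm
    have h1' : i ∈ Bl s y' := (show Bl s y = Bl s y' from h) ▸ h1
    rw [mem_Bl] at h1 h1'
    rw [h1, h1']
  rw [← e3, ← e2]
  refine prod_congr ?_ fun _ _ => rfl
  congr 1
  funext i
  ext j
  simp [Bl]

theorem prod_group {K : ℕ} (s : Fin K → ℤ × ℤ) (F : Fin K → ℤ → ℝ) (n : ℤ) :
    ∏ i, F i (3 ^ (s i).1.toNat * n + (s i).2) = ∏ y ∈ univ.image s, ∏ i ∈ Bl s y, F i (3 ^ y.1.toNat * n + y.2) := by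
  rw [← prod_fiberwise_of_maps_to (g := s) (t := univ.image s) (fun i _ => mem_image_of_mem s (mem_univ i))]
  refine prod_congr rfl fun y _ => ?_
  have e : univ.filter (fun i => s i = y) = Bl s y := by
    ext i
    rw [mem_Bl, mem_filter]
    exact ⟨fun h => h.2.symm, fun h => ⟨mem_univ _, h.symm⟩⟩
  rw [e]
  refine prod_congr rfl fun i hi => ?_
  rw [mem_Bl] at hi
  rw [hi]

/-- the different labels -/
theorem labels {K : ℕ} (s : Fin K → ℤ × ℤ) : ∃ (k : ℕ) (σ : Fin k → ℤ × ℤ), k < K + 1 ∧ Function.Injective σ ∧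
    (∀ a, ∃ i, s i = σ a) ∧ ∀ g : ℤ × ℤ → ℝ, ∏ y ∈ univ.image s, g y = ∏ a, g (σ a) := by
  have hcard := card_image_le (s := (univ : Finset (Fin K))) (f := s)
  rw [card_univ, Fintype.card_fin] at hcard
  refine ⟨(univ.image s).card, fun a => ((univ.image s).equivFin.symm a : ℤ × ℤ), by omega, ?_, ?_, ?_⟩
  · intro a b h
    exact (univ.image s).equivFin.symm.injective (Subtype.ext h)
  · intro a
    have := ((univ.image s).equivFin.symm a).2
    rw [mem_image] at this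
    obtain ⟨i, _, hi⟩ := this
    exact ⟨i, hi⟩
  · intro g
    rw [← prod_coe_sort, ← (univ.image s).equivFin.symm.prod_comp]

/-- (L7) -/
theorem t_BLK2 (hU : S_UNM2) (hR : S_RST) : S_BLK2 := by
  intro ψ hψ K ε hε
  have h1 : ∀ k : ℕ, ∃ G : ℝ, 0 < G ∧ ∀ᶠ L : ℕ in atTop,
      ∀ (F : Fin k → ℤ → ℝ) (κ : ℝ) (μ : Fin k → ℝ), (∀ i, MnQ ψ (F i) κ (μ i)) → ∀ X : ℝ, 0 < X → (L : ℝ) ≤ logb 2 X →
      logb 2 X ≤ 4 * L → ∀ D : Fin k → ℕ, (∀ i, (D i : ℝ) ≤ (L : ℝ) ^ (57 / 100 : ℝ)) →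
      (∀ i j, i ≠ j → G * √L ≤ |(D i : ℝ) - D j|) → |ccK F κ X D (fun _ => 0) - ∏ i, μ i| ≤ ε / 2 :=
    fun k => hU ψ hψ k (ε / 2) (by positivity)
  choose G hG0 hG using h1
  have hGK : ∀ k ∈ range (K + 1), G k ≤ ∑ k ∈ range (K + 1), G k := fun k hk =>
    single_le_sum (f := G) (fun i _ => (hG0 i).le) hk
  refine ⟨∑ k ∈ range (K + 1), G k, (hG0 0).trans_le (hGK 0 (mem_range.2 (Nat.succ_pos K))), ?_⟩
  have h2 := (eventually_all_finset (range (K + 1))).2 (fun k _ => hG k)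
  have h3 := (eventually_all_finset (l := (atTop : Filter ℕ)) (range (K + 1))).2
    (fun k _ => hR k (ε / 2) (by positivity))
  filter_upwards [h2, h3] with L h2 h3 F κ m hC X hX hL hL' s hs hsep
  obtain ⟨k, σ, hcard, hinj, hσS, hprod⟩ := labels s
  let F' : Fin k → ℤ → ℝ := fun a n => ∏ i ∈ Bl s (σ a), F i n
  have hM : ∀ a, MnQ ψ (F' a) κ (m (Bl s (σ a))) := by
    intro a
    obtain ⟨i, hi⟩ := hσS a
    exact hC (Bl s (σ a)) ⟨i, mem_Bl.2 hi.symm⟩
  have hIv : ∀ a, Pool.Agent.J4H26.PC.Iv (F' a) := fun a => (hM a).1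
  -- the correlation
  have e1 : cl F κ X s = ccK F' κ X (fun a => (σ a).1.toNat) (fun a => (σ a).2) := by
    unfold cl ccK
    congr 1
    refine sum_congr rfl fun n _ => ?_
    rw [prod_group s F n, hprod]
  have e2 : mP m s = ∏ a, m (Bl s (σ a)) := by
    rw [mP_eq, hprod]
  -- the constants
  have h4 : |ccK F' κ X (fun a => (σ a).1.toNat) (fun a => (σ a).2) -
      ccK F' κ X (fun a => (σ a).1.toNat) (fun _ => 0)| ≤ ε / 2 := by
    rcases isEmpty_or_nonempty (Fin k) with hE | ⟨⟨a⟩⟩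
    · have : (fun a => (σ a).2) = fun _ : Fin k => (0 : ℤ) := funext fun a => (hE.false a).elim
      rw [this, sub_self, abs_zero]
      positivity
    · obtain ⟨_, _, q, hq⟩ := hM a
      have hX2 : (2 : ℝ) ^ L ≤ X := by
        rw [Real.le_logb_iff_rpow_le (by norm_num) hX, rpow_natCast] at hL
        exact hL
      refine h3 k (mem_range.2 hcard) F' hIv κ X hq.kp hX2 _ _ fun b => ?_
      obtain ⟨i, hi⟩ := hσS b
      rw [← hi]
      exact (hs i).2.2
  have h5 : |ccK F' κ X (fun a => (σ a).1.toNat) (fun _ => 0) - ∏ a, m (Bl s (σ a))| ≤ ε / 2 := by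
    refine h2 k (mem_range.2 hcard) F' κ _ hM X hX hL hL' _ (fun a => ?_) fun a b hab => ?_
    · obtain ⟨i, hi⟩ := hσS a
      rw [← hi]
      have e3 : (((s i).1.toNat : ℕ) : ℝ) = ((s i).1 : ℝ) := by
        exact_mod_cast Int.toNat_of_nonneg (hs i).1
      rw [e3]
      exact (hs i).2.1
    · obtain ⟨i, hi⟩ := hσS a
      obtain ⟨j, hj⟩ := hσS b
      have hne : s i ≠ s j := by
        rw [hi, hj]
        intro h
        exact hab (hinj h)
      rw [← hi, ← hj]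
      have e3 : (((s i).1.toNat : ℕ) : ℝ) = ((s i).1 : ℝ) := by
        exact_mod_cast Int.toNat_of_nonneg (hs i).1
      have e4 : (((s j).1.toNat : ℕ) : ℝ) = ((s j).1 : ℝ) := by
        exact_mod_cast Int.toNat_of_nonneg (hs j).1
      rw [e3, e4]
      refine le_trans ?_ ((hsep i j).resolve_left hne)
      exact mul_le_mul_of_nonneg_right (hGK k (mem_range.2 hcard)) (sqrt_nonneg _)
  rw [e1, e2]
  refine (abs_sub_le _ _ _).trans ((add_le_add h4 h5).trans (le_of_eq ?_))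
  ring

end Pool.Agent.J4H97.KP
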