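import Pool.Agent.J4H26.KP.Q
import Pool.Agent.J4H26.PC.C3

set_option autoImplicit false

/-! Project KP (J17): sums and integrals. -/

namespace Pool.Agent.J4H97.KP

open Finset Filter Real
open Pool.Agent.J4H26.PC (Ph kS card_win Icc_shift Icc_shift' HN_facts HN_small)
open Pool.Agent.J4H79.PC2 (int_ceil Ico_range shift_le)
open Pool.Agent.J4H26.KP (gR mom S_SHR)

/-- the product of the averages over the `H` integers from `k` on -/
noncomputable def gwK {K : ℕ} (F : Fin K → ℤ → ℝ) (H : ℕ) (k : ℤ) : ℝ := ∏ i, (∑ j ∈ range H, F i (k + (j : ℕ))) / H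

theorem avg_mem {f : ℤ → ℝ} (hf : ∀ n, 0 ≤ f n ∧ f n ≤ 1) {H : ℕ} (hH : 1 ≤ H) (k : ℤ) :
    0 ≤ (∑ j ∈ range H, f (k + (j : ℕ))) / H ∧ (∑ j ∈ range H, f (k + (j : ℕ))) / H ≤ 1 := by
  have hH0 : (0 : ℝ) < H := by exact_mod_cast hH
  refine ⟨div_nonneg (sum_nonneg fun i _ => (hf _).1) hH0.le, ?_⟩
  rw [div_le_one hH0]
  refine (sum_le_card_nsmul _ _ 1 (fun i _ => (hf _).2)).trans ?_
  rw [card_range, nsmul_eq_mul, mul_one]

theorem gwK_mem {K : ℕ} {F : Fin K → ℤ → ℝ} (hF : ∀ i n, 0 ≤ F i n ∧ F i n ≤ 1) {H : ℕ} (hH : 1 ≤ H) (k : ℤ) :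
    0 ≤ gwK F H k ∧ gwK F H k ≤ 1 := by
  unfold gwK
  exact ⟨prod_nonneg fun i _ => (avg_mem (hF i) hH k).1,
    prod_le_one (fun i _ => (avg_mem (hF i) hH k).1) fun i _ => (avg_mem (hF i) hH k).2⟩

theorem int_gwK {K : ℕ} {F : Fin K → ℤ → ℝ} (hF : ∀ i n, 0 ≤ F i n ∧ F i n ≤ 1) (κ : ℝ) {N H : ℕ} (hN : 1 ≤ N)
    (hH : 1 ≤ H) : |(∫ x in (κ * N)..(κ * N + N), ∏ i, Ph (F i) x H) / N -
      (∑ j ∈ range N, gwK F H (⌈κ * N⌉ + (j : ℕ))) / N| ≤ 1 / N := by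
  have hN0 : (0 : ℝ) < N := by exact_mod_cast hN
  have hH1 : (1 : ℝ) ≤ H := by exact_mod_cast hH
  have h1 := int_ceil (gwK F H) (M := 1) (gwK_mem hF hH) (κ * N) N
  have e1 : ∀ x : ℝ, ∏ i, Ph (F i) x H = gwK F H ⌈x⌉ := by
    intro x
    unfold gwK
    refine prod_congr rfl fun i _ => ?_
    unfold Ph
    rw [max_eq_left hH1, Int.ceil_add_natCast, Ico_range]
  rw [intervalIntegral.integral_congr (fun x _ => e1 x), ← sub_div, abs_div, abs_of_pos hN0]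
  exact div_le_div_of_nonneg_right h1 hN0.le

theorem gR_mem (s : ℤ) (R : Set ℤ) (n : ℤ) : 0 ≤ gR s R n ∧ gR s R n ≤ 1 := by
  unfold gR
  split_ifs <;> norm_num

theorem mom_gwK {K : ℕ} {s : ℤ} (hs : s = 1 ∨ s = -1) (R : Fin K → Set ℤ) {N H : ℕ} (hN : 1 ≤ N) (hH : 1 ≤ H) :
    |mom s R N H - (∑ j ∈ range N, gwK (fun i => gR s (R i)) H (⌈kS s * N⌉ + (j : ℕ))) / N| ≤ ((H : ℝ) + 4) / N := by
  classical
  have hN0 : (0 : ℝ) < N := by exact_mod_cast hN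
  have hH0 : (0 : ℝ) < H := by exact_mod_cast hH
  set F : Fin K → ℤ → ℝ := fun i => gR s (R i) with hFd
  have hF : ∀ i n, 0 ≤ F i n ∧ F i n ≤ 1 := fun i n => gR_mem s (R i) n
  -- the terms
  have h1 : ∀ m ∈ Finset.Icc 1 N, |(∏ i, (({h : ℕ | (1 ≤ h ∧ h ≤ H) ∧ s * (m : ℕ) + h ∈ R i}.ncard : ℝ) / H)) -
      gwK F H (s * (m : ℕ) + 1)| ≤ (if m ≤ H then 1 else 0) := by
    intro m hm
    rw [Finset.mem_Icc] at hm
    have hb := gwK_mem hF hH (s * (m : ℕ) + 1)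
    by_cases hmH : m ≤ H
    · rw [if_pos hmH]
      have hi : ∀ i, 0 ≤ ({h : ℕ | (1 ≤ h ∧ h ≤ H) ∧ s * (m : ℕ) + h ∈ R i}.ncard : ℝ) / H ∧
          ({h : ℕ | (1 ≤ h ∧ h ≤ H) ∧ s * (m : ℕ) + h ∈ R i}.ncard : ℝ) / H ≤ 1 := by
        intro i
        have e0 := card_win (R i) (s * (m : ℕ)) H
        have e0' : ({h : ℕ | (1 ≤ h ∧ h ≤ H) ∧ s * (m : ℕ) + h ∈ R i}.ncard : ℝ) ≤ H := by
          rw [e0]
          refine (sum_le_card_nsmul _ _ 1 (fun i _ => by split_ifs <;> norm_num)).trans ?_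
          rw [card_range, nsmul_eq_mul, mul_one]
        exact ⟨by positivity, (div_le_one hH0).2 e0'⟩
      have ha : 0 ≤ ∏ i, (({h : ℕ | (1 ≤ h ∧ h ≤ H) ∧ s * (m : ℕ) + h ∈ R i}.ncard : ℝ) / H) ∧
          ∏ i, (({h : ℕ | (1 ≤ h ∧ h ≤ H) ∧ s * (m : ℕ) + h ∈ R i}.ncard : ℝ) / H) ≤ 1 :=
        ⟨prod_nonneg fun i _ => (hi i).1, prod_le_one (fun i _ => (hi i).1) fun i _ => (hi i).2⟩
      rw [abs_le]
      constructor <;> linarith [ha.1, ha.2, hb.1, hb.2]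
    · rw [if_neg hmH]
      have e : ∏ i, (({h : ℕ | (1 ≤ h ∧ h ≤ H) ∧ s * (m : ℕ) + h ∈ R i}.ncard : ℝ) / H) = gwK F H (s * (m : ℕ) + 1) := by
        unfold gwK
        refine prod_congr rfl fun i _ => ?_
        rw [card_win]
        congr 1
        apply sum_congr rfl
        intro j hj
        rw [mem_range] at hj
        have hpos : 0 < s * (s * (m : ℕ) + 1 + (j : ℕ)) := by
          rcases hs with rfl | rfl
          · omega
          · omega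
        rw [hFd]
        simp only [gR]
        by_cases hR : s * (m : ℕ) + 1 + (j : ℕ) ∈ R i
        · rw [if_pos hR, if_pos ⟨hpos, hR⟩]
        · rw [if_neg hR, if_neg (fun h => hR h.2)]
      rw [e, sub_self, abs_zero]
  have h2 : |∑ m ∈ Finset.Icc 1 N, (∏ i, (({h : ℕ | (1 ≤ h ∧ h ≤ H) ∧ s * (m : ℕ) + h ∈ R i}.ncard : ℝ) / H)) -
      ∑ m ∈ Finset.Icc 1 N, gwK F H (s * (m : ℕ) + 1)| ≤ H := by
    rw [← sum_sub_distrib]
    refine (abs_sum_le_sum_abs _ _).trans ((sum_le_sum h1).trans ?_)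
    rw [← Finset.sum_filter]
    refine (le_of_eq (sum_const _)).trans ?_
    rw [nsmul_eq_mul, mul_one]
    have : #((Finset.Icc 1 N).filter (fun m => m ≤ H)) ≤ #(Finset.Icc 1 H) := by
      apply Finset.card_le_card
      intro m hm
      rw [Finset.mem_filter, Finset.mem_Icc] at hm
      rw [Finset.mem_Icc]
      omega
    rw [Nat.card_Icc, Nat.add_sub_cancel] at this
    exact_mod_cast this
  have hg1 : ∀ n, |gwK F H n| ≤ 1 := by
    intro n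
    have := gwK_mem hF hH n
    rw [abs_of_nonneg this.1]
    exact this.2
  have h3 : |∑ m ∈ Finset.Icc 1 N, gwK F H (s * (m : ℕ) + 1) - ∑ j ∈ range N, gwK F H (⌈kS s * N⌉ + (j : ℕ))| ≤ 4 := by
    rcases hs with rfl | rfl
    · rw [Icc_shift]
      have e : ⌈kS 1 * (N : ℝ)⌉ = 0 := by unfold kS; simp
      rw [e]
      have := shift_le (gwK F H) hg1 0 N 2
      norm_num at this ⊢
      exact this
    · rw [Icc_shift']
      have e : ⌈kS (-1) * (N : ℝ)⌉ = -(N : ℤ) := by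
        unfold kS
        rw [if_neg (by norm_num)]
        have : (-1 : ℝ) * (N : ℝ) = ((-(N : ℤ) : ℤ) : ℝ) := by push_cast; ring
        rw [this, Int.ceil_intCast]
      rw [e]
      have := shift_le (gwK F H) hg1 (-(N : ℤ)) N 1
      refine this.trans ?_
      norm_num
  unfold mom
  rw [← sub_div, abs_div, abs_of_pos hN0]
  apply div_le_div_of_nonneg_right _ hN0.le
  exact (abs_sub_le _ _ _).trans (add_le_add h2 h3)

/-- (J17) -/
theorem t_SHR : S_SHR := by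
  intro K θ ε hθ hθ1 hε
  filter_upwards [HN_facts hθ hθ1, HN_small hθ hθ1 hε, eventually_ge_atTop 1] with N hH hS hN s hs R
  have g2 := int_gwK (F := fun i => gR s (R i)) (fun i n => gR_mem s (R i) n) (kS s) hN hH.1
  have g3 := mom_gwK hs R hN hH.1
  have e : ((⌊(N : ℝ) ^ θ⌋₊ : ℝ) + 5) / N = ((⌊(N : ℝ) ^ θ⌋₊ : ℝ) + 4) / N + 1 / N := by ring
  rw [e] at hS
  rw [abs_le] at g2 g3 ⊢
  constructor <;> linarith

end Pool.Agent.J4H97.KP
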